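import Mathlib

/-!
Translation KM-arcs built from inequivalent clubs are inequivalent.
-/

namespace Pool.Agent.Results.MP_5fce70_co.ClubArcs

section defs

variable {F : Type} [Field F]

/-- The vector `w` of `F ^ 2` has weight `k` for the additive subgroup (`𝔽₂`-subspace) `U`: the
intersection of `U` with the `F`-span of `w` has `2 ^ k` elements. -/
def HasWeight (U : AddSubgroup (Fin 2 → F)) (w : Fin 2 → F) (k : ℕ) : Prop :=
  {u | u ∈ U ∧ u ∈ Submodule.span F {w}}.ncard = 2 ^ k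

/-- `U` defines an `i`-club over the field with `2 ^ n` elements: it has rank `n`, one point
`⟨w₀⟩` has weight `i ≥ 1`, and every other point `⟨w⟩` of the linear set has weight `1` (and not
weight `i`). -/
structure IsClub (n i : ℕ) (U : AddSubgroup (Fin 2 → F)) : Prop where
  card_eq : Nat.card U = 2 ^ n
  one_le : 1 ≤ i
  club : ∃ w₀ : Fin 2 → F, w₀ ≠ 0 ∧ HasWeight U w₀ i ∧ ∀ w : Fin 2 → F, w ≠ 0 →
    w ∉ Submodule.span F {w₀} → (∃ u ∈ U, u ≠ 0 ∧ u ∈ Submodule.span F {w}) →
      HasWeight U w 1 ∧ ¬ HasWeight U w i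

/-- The points of `PG(2, F)`. -/
abbrev PG (F : Type) [Field F] : Type := Projectivization F (Fin 3 → F)

/-- The inclusion `(a, b) ↦ (a, b, 0)`. -/
def inc : (Fin 2 → F) →ₗ[F] (Fin 3 → F) where
  toFun := fun w => ![w 0, w 1, 0]
  map_add' := by intro v w; ext i; fin_cases i <;> simp
  map_smul' := by intro a w; ext i; fin_cases i <;> simp

/-- The line at infinity `X₂ = 0`. -/
def ell : Set (PG F) :=
  {P | ∃ (v : Fin 3 → F) (hv : v ≠ 0), v 2 = 0 ∧ P = Projectivization.mk F v hv}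

/-- The linear set defined by an additive subgroup of `F ^ 3`. -/
def linSet (W : AddSubgroup (Fin 3 → F)) : Set (PG F) :=
  {P | ∃ (v : Fin 3 → F) (hv : v ≠ 0), v ∈ W ∧ P = Projectivization.mk F v hv}

/-- The point set `𝒜(U, v)`. -/
def arc (U : AddSubgroup (Fin 2 → F)) (v : Fin 3 → F) : Set (PG F) :=
  (linSet (U.map inc.toAddMonoidHom ⊔ AddSubgroup.zmultiples v) \ ell) ∪
    (ell \ linSet (U.map inc.toAddMonoidHom))

/-- Collineations of `PG(2, F)`: the maps induced by bijective semilinear maps. -/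
def IsCollineation (g : PG F → PG F) : Prop :=
  ∃ (σ : F ≃+* F) (f : (Fin 3 → F) →ₛₗ[(σ : F →+* F)] (Fin 3 → F)) (hf : Function.Bijective f),
    g = Projectivization.map f hf.injective

/-- `U₁` and `U₂` are equivalent under `ΓL(2, F)`. -/
def GammaLEquiv (U₁ U₂ : AddSubgroup (Fin 2 → F)) : Prop :=
  ∃ (σ : F ≃+* F) (f : (Fin 2 → F) →ₛₗ[(σ : F →+* F)] (Fin 2 → F)), Function.Bijective f ∧
    f '' (U₁ : Set (Fin 2 → F)) = (U₂ : Set (Fin 2 → F))

end defs

section plane

variable {F : Type} [Field F]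

/-- The first two coordinates. -/
def fst2 (x : Fin 3 → F) : Fin 2 → F := ![x 0, x 1]

lemma inc0 (w : Fin 2 → F) : inc w 0 = w 0 := rfl

lemma inc1 (w : Fin 2 → F) : inc w 1 = w 1 := rfl

lemma inc2 (w : Fin 2 → F) : inc w 2 = 0 := rfl

/-- The bracket of two vectors. -/
def br (x y : Fin 2 → F) : F := x 0 * y 1 - x 1 * y 0

lemma br_add (x y z : Fin 2 → F) : br x (y + z) = br x y + br x z := by
  simp only [br, Pi.add_apply]; ring

lemma br_sub (x y z : Fin 2 → F) : br x (y - z) = br x y - br x z := by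
  simp only [br, Pi.sub_apply]; ring

lemma br_smul (c : F) (x y : Fin 2 → F) : br x (c • y) = c * br x y := by
  simp only [br, Pi.smul_apply, smul_eq_mul]; ring

lemma mem_span_iff_br {w x : Fin 2 → F} (hw : w ≠ 0) : x ∈ Submodule.span F {w} ↔ br w x = 0 := by
  rw [Submodule.mem_span_singleton]
  constructor
  · rintro ⟨c, rfl⟩
    simp only [br, Pi.smul_apply, smul_eq_mul]; ring
  · intro h
    by_cases h0 : w 0 = 0
    · have h1 : w 1 ≠ 0 := by
        intro h1
        apply hw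
        ext i
        fin_cases i
        · exact h0
        · exact h1
      refine ⟨x 1 / w 1, ?_⟩
      have h2 : x 0 = 0 := by
        rw [br, h0] at h
        have : w 1 * x 0 = 0 := by linear_combination -h
        exact (mul_eq_zero.mp this).resolve_left h1
      ext i
      fin_cases i
      · simp [h0, h2]
      · simp [h1]
    · refine ⟨x 0 / w 0, ?_⟩
      rw [br] at h
      ext i
      fin_cases i
      · simp [h0]
      · simp
        field_simp
        linear_combination -h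

/-- The data extracted from a club with `2 ≤ i < n`. -/
structure Good (U : AddSubgroup (Fin 2 → F)) (w₀ : Fin 2 → F) : Prop where
  ne : w₀ ≠ 0
  ex : ∃ b ∈ U, br w₀ b ≠ 0
  ex2 : ∃ u ∈ U, ∃ b ∈ U, br u b ≠ 0
  wt : ∀ w, w ≠ 0 → br w₀ w ≠ 0 → ∀ u ∈ U, ∀ u' ∈ U, u ≠ 0 → u' ≠ 0 → br w u = 0 → br w u' = 0 →
    u = u'
  miss : ∃ x y z : Fin 2 → F, (x ≠ 0 ∧ y ≠ 0 ∧ z ≠ 0) ∧ (br x y ≠ 0 ∧ br y z ≠ 0 ∧ br x z ≠ 0) ∧
    (∀ c : F, c ≠ 0 → c • x ∉ U) ∧ (∀ c : F, c ≠ 0 → c • y ∉ U) ∧ (∀ c : F, c ≠ 0 → c • z ∉ U)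

/-- The vectors representing the points of the arc. -/
def cone (U : AddSubgroup (Fin 2 → F)) (x : Fin 3 → F) : Prop :=
  (x 2 ≠ 0 ∧ (x 2)⁻¹ • fst2 x ∈ U) ∨ (x 2 = 0 ∧ fst2 x ≠ 0 ∧ ∀ c : F, c ≠ 0 → c • fst2 x ∉ U)

/-- A linear functional. -/
def fn (a x : Fin 3 → F) : F := a 0 * x 0 + a 1 * x 1 + a 2 * x 2

/-- Two vectors are proportional. -/
def prop (x y : Fin 3 → F) : Prop := ∃ c : F, c ≠ 0 ∧ y = c • x

/-- A functional whose kernel contains three points of the arc. -/
def Rich (U : AddSubgroup (Fin 2 → F)) (a : Fin 3 → F) : Prop :=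
  ∃ x y z : Fin 3 → F, (cone U x ∧ cone U y ∧ cone U z) ∧ (fn a x = 0 ∧ fn a y = 0 ∧ fn a z = 0) ∧
    ¬ prop x y ∧ ¬ prop y z ∧ ¬ prop x z

/-- The affine point. -/
def aff (u : Fin 2 → F) : Fin 3 → F := ![u 0, u 1, 1]

lemma cone_ne {U : AddSubgroup (Fin 2 → F)} {x : Fin 3 → F} (h : cone U x) : x ≠ 0 := by
  rintro rfl
  rcases h with h | h
  · exact h.1 rfl
  · apply h.2.1
    ext i; fin_cases i <;> rfl

/-- Classification of rich lines. -/
lemma rich_class {U : AddSubgroup (Fin 2 → F)} {w₀ : Fin 2 → F} (hU : Good U w₀)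
    {a : Fin 3 → F} (ha : a 0 ≠ 0 ∨ a 1 ≠ 0) (hR : Rich U a) :
    fn a (inc w₀) = 0 ∧ ∃ u ∈ U, fn a (aff u) = 0 := by
  obtain ⟨x, y, z, ⟨hx, hy, hz⟩, ⟨fx, fy, fz⟩, hxy, hyz, hxz⟩ := hR
  -- the direction of the line
  set w : Fin 2 → F := ![a 1, -a 0] with hw
  have hw0 : w ≠ 0 := by
    intro h
    have h0 := congrFun h 0
    have h1 := congrFun h 1
    simp [hw] at h0 h1
    rcases ha with ha | ha
    · exact ha h1
    · exact ha h0
  -- vectors at infinity on the line are multiples of `w`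
  have hinf : ∀ t : Fin 3 → F, fn a t = 0 → t 2 = 0 → br w (fst2 t) = 0 := by
    intro t ht ht2
    simp only [fn, ht2, mul_zero, add_zero] at ht
    simp [br, hw, fst2]
    linear_combination ht
  have haff : ∀ s t : Fin 3 → F, fn a s = 0 → fn a t = 0 → s 2 ≠ 0 → t 2 ≠ 0 →
      br w ((s 2)⁻¹ • fst2 s - (t 2)⁻¹ • fst2 t) = 0 := by
    intro s t hs ht hs2 ht2
    simp only [fn] at hs ht
    simp [br, hw, fst2]
    field_simp
    linear_combination (t 2) * hs - (s 2) * ht
  -- proportionality criteria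
  have hprop1 : ∀ s t : Fin 3 → F, cone U s → cone U t → fn a s = 0 → fn a t = 0 → s 2 = 0 →
      t 2 = 0 → prop s t := by
    intro s t hs ht fs ft hs2 ht2
    have hs' : fst2 s ≠ 0 := by
      rcases hs with hs | hs
      · exact absurd hs2 hs.1
      · exact hs.2.1
    have ht' : fst2 t ≠ 0 := by
      rcases ht with ht | ht
      · exact absurd ht2 ht.1
      · exact ht.2.1
    have h1 := (mem_span_iff_br hw0).mpr (hinf s fs hs2)
    have h2 := (mem_span_iff_br hw0).mpr (hinf t ft ht2)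
    obtain ⟨c, hc⟩ := Submodule.mem_span_singleton.mp h1
    obtain ⟨d, hd⟩ := Submodule.mem_span_singleton.mp h2
    have hc0 : c ≠ 0 := fun h => hs' (by rw [← hc, h, zero_smul])
    have hd0 : d ≠ 0 := fun h => ht' (by rw [← hd, h, zero_smul])
    refine ⟨d / c, div_ne_zero hd0 hc0, ?_⟩
    have e : fst2 t = (d / c) • fst2 s := by
      rw [← hc, ← hd, smul_smul, div_mul_cancel₀ _ hc0]
    have e0 := congrFun e 0
    have e1 := congrFun e 1
    simp [fst2] at e0 e1
    ext i
    fin_cases i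
    · simpa using e0
    · simpa using e1
    · simp [hs2, ht2]
  have hprop2 : ∀ s t : Fin 3 → F, s 2 ≠ 0 → t 2 ≠ 0 →
      (s 2)⁻¹ • fst2 s = (t 2)⁻¹ • fst2 t → prop s t := by
    intro s t hs2 ht2 e
    refine ⟨t 2 / s 2, div_ne_zero ht2 hs2, ?_⟩
    have e0 := congrFun e 0
    have e1 := congrFun e 1
    simp [fst2] at e0 e1
    ext i
    fin_cases i
    · simp
      field_simp at e0 ⊢
      linear_combination -e0
    · simp
      field_simp at e1 ⊢
      linear_combination -e1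
    · simp
      field_simp
  -- if some vector on the line is at infinity, the affine ones are proportional
  have hmix : ∀ r s t : Fin 3 → F, cone U r → cone U s → cone U t → fn a r = 0 → fn a s = 0 →
      fn a t = 0 → r 2 = 0 → s 2 ≠ 0 → t 2 ≠ 0 → prop s t := by
    intro r s t hr hs ht fr fs ft hr2 hs2 ht2
    apply hprop2 s t hs2 ht2
    by_contra hne
    have hd : (s 2)⁻¹ • fst2 s - (t 2)⁻¹ • fst2 t ≠ 0 := sub_ne_zero.mpr hne
    have hdU : (s 2)⁻¹ • fst2 s - (t 2)⁻¹ • fst2 t ∈ U := by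
      apply U.sub_mem
      · rcases hs with hs | hs
        · exact hs.2
        · exact absurd hs.1 hs2
      · rcases ht with ht | ht
        · exact ht.2
        · exact absurd ht.1 ht2
    rcases hr with hr | hr
    · exact hr.1 hr2
    have h1 := (mem_span_iff_br hw0).mpr (hinf r fr hr2)
    have h2 := (mem_span_iff_br hw0).mpr (haff s t fs ft hs2 ht2)
    obtain ⟨c, hc⟩ := Submodule.mem_span_singleton.mp h1
    obtain ⟨d, hd'⟩ := Submodule.mem_span_singleton.mp h2
    have hc0 : c ≠ 0 := fun h => hr.2.1 (by rw [← hc, h, zero_smul])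
    have hd0 : d ≠ 0 := fun h => hd (by rw [← hd', h, zero_smul])
    apply hr.2.2 (d / c) (div_ne_zero hd0 hc0)
    rw [← hc, smul_smul, div_mul_cancel₀ _ hc0, hd']
    exact hdU
  have psymm : ∀ s t : Fin 3 → F, prop s t → prop t s := by
    rintro s t ⟨c, hc, rfl⟩
    exact ⟨c⁻¹, inv_ne_zero hc, by rw [smul_smul, inv_mul_cancel₀ hc, one_smul]⟩
  have hx2 : x 2 ≠ 0 := by
    intro hx2
    have hy2 : y 2 ≠ 0 := fun h => hxy (hprop1 x y hx hy fx fy hx2 h)
    have hz2 : z 2 ≠ 0 := fun h => hxz (hprop1 x z hx hz fx fz hx2 h)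
    exact hyz (hmix x y z hx hy hz fx fy fz hx2 hy2 hz2)
  have hy2 : y 2 ≠ 0 := by
    intro hy2
    have hz2 : z 2 ≠ 0 := fun h => hyz (hprop1 y z hy hz fy fz hy2 h)
    exact hxz (hmix y x z hy hx hz fy fx fz hy2 hx2 hz2)
  have hz2 : z 2 ≠ 0 := fun hz2 => hxy (hmix z x y hz hx hy fz fx fy hz2 hx2 hy2)
  have mU : ∀ s : Fin 3 → F, cone U s → s 2 ≠ 0 → (s 2)⁻¹ • fst2 s ∈ U := by
    intro s hs hs2
    rcases hs with hs | hs
    · exact hs.2
    · exact absurd hs.1 hs2
  -- hence the weight of `w` is large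
  have hwt : br w₀ w = 0 := by
    by_contra hne
    have h1 := hU.wt w hw0 hne _ (U.sub_mem (mU x hx hx2) (mU y hy hy2)) _
      (U.sub_mem (mU x hx hx2) (mU z hz hz2))
      (fun h => hxy (hprop2 x y hx2 hy2 (sub_eq_zero.mp h)))
      (fun h => hxz (hprop2 x z hx2 hz2 (sub_eq_zero.mp h)))
      (haff x y fx fy hx2 hy2) (haff x z fx fz hx2 hz2)
    exact hyz (hprop2 y z hy2 hz2 (sub_right_injective h1))
  refine ⟨?_, _, mU x hx hx2, ?_⟩
  · simp [br, hw] at hwt
    simp [fn, inc]
    linear_combination -hwt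
  · simp only [fn] at fx
    simp [fn, aff, fst2]
    field_simp
    linear_combination fx

lemma fn_add (a x y : Fin 3 → F) : fn a (x + y) = fn a x + fn a y := by
  simp only [fn, Pi.add_apply]; ring

lemma fn_smul (a : Fin 3 → F) (c : F) (x : Fin 3 → F) : fn a (c • x) = c * fn a x := by
  simp only [fn, Pi.smul_apply, smul_eq_mul]; ring

/-- The functional of the line at infinity. -/
def ainf : Fin 3 → F := ![0, 0, 1]

lemma fn_ainf (x : Fin 3 → F) : fn ainf x = x 2 := by simp [fn, ainf]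

lemma ker_iff {w u : Fin 2 → F} (hw : w ≠ 0) {a : Fin 3 → F} (ha : a ≠ 0)
    (h1 : fn a (inc w) = 0) (h2 : fn a (aff u) = 0) (x : Fin 3 → F) :
    fn a x = 0 ↔ br w (fst2 x - x 2 • u) = 0 := by
  simp [fn, inc, aff] at h1 h2
  have ha01 : a 0 ≠ 0 ∨ a 1 ≠ 0 := by
    by_contra hcon
    push Not at hcon
    apply ha
    ext i
    fin_cases i
    · exact hcon.1
    · exact hcon.2
    · simp [hcon.1, hcon.2] at h2
      exact h2
  simp only [fn, br, fst2, Pi.sub_apply, Pi.smul_apply, smul_eq_mul, Matrix.cons_val_zero,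
    Matrix.cons_val_one]
  have hw01 : w 0 ≠ 0 ∨ w 1 ≠ 0 := by
    by_contra hcon
    push Not at hcon
    apply hw
    ext i
    fin_cases i
    · exact hcon.1
    · exact hcon.2
  -- `a 2` in terms of the others
  have h3 : a 2 = -(a 0 * u 0) - a 1 * u 1 := by linear_combination h2
  rw [h3]
  rcases ha01 with ha | ha
  · -- `a 0 ≠ 0`, so `w 1 ≠ 0`
    have hw1 : w 1 ≠ 0 := by
      intro h
      rw [h, mul_zero, add_zero] at h1
      rcases hw01 with h0 | h0
      · exact (mul_ne_zero ha h0) h1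
      · exact h0 h
    have h4 : a 0 * (w 0 * (x 1 - x 2 * u 1) - w 1 * (x 0 - x 2 * u 0)) =
        -(w 1) * (a 0 * x 0 + a 1 * x 1 + (-(a 0 * u 0) - a 1 * u 1) * x 2) := by
      linear_combination (x 1 - x 2 * u 1) * h1
    constructor
    · intro h
      rw [h, mul_zero] at h4
      exact (mul_eq_zero.mp h4).resolve_left ha
    · intro h
      rw [h, mul_zero] at h4
      exact (mul_eq_zero.mp h4.symm).resolve_left (neg_ne_zero.mpr hw1)
  · have hw0 : w 0 ≠ 0 := by
      intro h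
      rw [h, mul_zero, zero_add] at h1
      rcases hw01 with h0 | h0
      · exact h0 h
      · exact (mul_ne_zero ha h0) h1
    have h4 : a 1 * (w 0 * (x 1 - x 2 * u 1) - w 1 * (x 0 - x 2 * u 0)) =
        (w 0) * (a 0 * x 0 + a 1 * x 1 + (-(a 0 * u 0) - a 1 * u 1) * x 2) := by
      linear_combination -(x 0 - x 2 * u 0) * h1
    constructor
    · intro h
      rw [h, mul_zero] at h4
      exact (mul_eq_zero.mp h4).resolve_left ha
    · intro h
      rw [h, mul_zero] at h4
      exact (mul_eq_zero.mp h4.symm).resolve_left hw0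

/-- A semilinear bijection carrying the cone of one arc to that of another. -/
structure Tr (U₁ U₂ : AddSubgroup (Fin 2 → F)) where
  /-- the field automorphism -/
  σ : F ≃+* F
  /-- the map -/
  f : (Fin 3 → F) ≃+ (Fin 3 → F)
  smul : ∀ (a : F) (v : Fin 3 → F), f (a • v) = σ a • f v
  cone_iff : ∀ x, cone U₁ x ↔ cone U₂ (f x)

/-- Inverse. -/
def Tr.symm {U₁ U₂ : AddSubgroup (Fin 2 → F)} (t : Tr U₁ U₂) : Tr U₂ U₁ where
  σ := t.σ.symm
  f := t.f.symm
  smul := by
    intro a v
    apply t.f.injective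
    rw [t.smul]
    simp
  cone_iff := by
    intro x
    rw [t.cone_iff]
    simp

/-- Composition. -/
def Tr.trans {U₁ U₂ U₃ : AddSubgroup (Fin 2 → F)} (t : Tr U₁ U₂) (s : Tr U₂ U₃) : Tr U₁ U₃ where
  σ := t.σ.trans s.σ
  f := t.f.trans s.f
  smul := by
    intro a v
    simp [t.smul, s.smul]
  cone_iff := by
    intro x
    rw [t.cone_iff, s.cone_iff]
    rfl

/-- Translations. -/
def tau (U : AddSubgroup (Fin 2 → F)) (b : Fin 2 → F) (hb : b ∈ U) : Tr U U where
  σ := RingEquiv.refl F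
  f :=
    { toFun := fun x => x + x 2 • inc b
      invFun := fun x => x - x 2 • inc b
      left_inv := by
        intro x
        simp [inc2]
      right_inv := by
        intro x
        simp [inc2]
      map_add' := by
        intro x y
        rw [Pi.add_apply, add_smul]
        abel }
  smul := by
    intro a v
    change a • v + (a • v) 2 • inc b = a • (v + v 2 • inc b)
    rw [Pi.smul_apply, smul_eq_mul, smul_add, smul_smul]
  cone_iff := by
    intro x
    have e2 : (x + x 2 • inc b) 2 = x 2 := by simp [inc]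
    have ef : fst2 (x + x 2 • inc b) = fst2 x + x 2 • b := by
      ext i; fin_cases i <;> simp [inc, fst2]
    change cone U x ↔ cone U (x + x 2 • inc b)
    rw [cone, cone, e2, ef]
    by_cases h : x 2 = 0
    · rw [h, zero_smul, add_zero]
    · have e3 : (x 2)⁻¹ • (fst2 x + x 2 • b) = (x 2)⁻¹ • fst2 x + b := by
        rw [smul_add, smul_smul, inv_mul_cancel₀ h, one_smul]
      rw [e3]
      constructor
      · rintro (h1 | h1)
        · exact Or.inl ⟨h, U.add_mem h1.2 hb⟩
        · exact absurd h1.1 h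
      · rintro (h1 | h1)
        · refine Or.inl ⟨h, ?_⟩
          have := U.sub_mem h1.2 hb
          simpa using this
        · exact absurd h1.1 h

lemma tau_apply (U : AddSubgroup (Fin 2 → F)) (b : Fin 2 → F) (hb : b ∈ U) (x : Fin 3 → F) :
    (tau U b hb).f x = x + x 2 • inc b := rfl

/-- Pulling back functionals. -/
lemma Tr.pull {U₁ U₂ : AddSubgroup (Fin 2 → F)} (t : Tr U₁ U₂) (a : Fin 3 → F) (ha : a ≠ 0) :
    ∃ a' : Fin 3 → F, a' ≠ 0 ∧ ∀ x, fn a' x = 0 ↔ fn a (t.f x) = 0 := by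
  let e : Fin 3 → (Fin 3 → F) := fun i => Pi.single i 1
  let a' : Fin 3 → F := fun i => t.σ.symm (fn a (t.f (e i)))
  have key : ∀ x, t.σ (fn a' x) = fn a (t.f x) := by
    intro x
    have hx : x = x 0 • e 0 + x 1 • e 1 + x 2 • e 2 := by
      ext i; fin_cases i <;> simp [e]
    conv_rhs => rw [hx, map_add, map_add, t.smul, t.smul, t.smul, fn_add, fn_add, fn_smul,
      fn_smul, fn_smul]
    simp only [fn, map_add, map_mul, a', RingEquiv.apply_symm_apply]
    ring
  have hiff : ∀ x, fn a' x = 0 ↔ fn a (t.f x) = 0 := by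
    intro x
    rw [← key]
    exact (map_eq_zero_iff t.σ t.σ.injective).symm
  refine ⟨a', ?_, hiff⟩
  intro h
  apply ha
  have hz : ∀ y, fn a y = 0 := by
    intro y
    obtain ⟨x, rfl⟩ := t.f.surjective y
    rw [← hiff, h]
    simp [fn]
  ext i
  have := hz (Pi.single i 1)
  fin_cases i <;> simpa [fn] using this

lemma Tr.prop_symm {U₁ U₂ : AddSubgroup (Fin 2 → F)} (t : Tr U₁ U₂) {x y : Fin 3 → F}
    (h : prop (t.f.symm x) (t.f.symm y)) : prop x y := by
  obtain ⟨c, hc, h⟩ := h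
  refine ⟨t.σ c, (map_ne_zero_iff t.σ t.σ.injective).mpr hc, ?_⟩
  have := congrArg t.f h
  rw [t.smul] at this
  simpa using this

lemma Tr.rich {U₁ U₂ : AddSubgroup (Fin 2 → F)} (t : Tr U₁ U₂) {a a' : Fin 3 → F}
    (h : ∀ x, fn a' x = 0 ↔ fn a (t.f x) = 0) (hR : Rich U₂ a) : Rich U₁ a' := by
  obtain ⟨x, y, z, ⟨hx, hy, hz⟩, ⟨fx, fy, fz⟩, hxy, hyz, hxz⟩ := hR
  refine ⟨t.f.symm x, t.f.symm y, t.f.symm z, ⟨?_, ?_, ?_⟩, ⟨?_, ?_, ?_⟩,
    fun h => hxy (t.prop_symm h), fun h => hyz (t.prop_symm h), fun h => hxz (t.prop_symm h)⟩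
  · rw [t.cone_iff]; simpa using hx
  · rw [t.cone_iff]; simpa using hy
  · rw [t.cone_iff]; simpa using hz
  · rw [h]; simpa using fx
  · rw [h]; simpa using fy
  · rw [h]; simpa using fz

lemma rich_inf {U : AddSubgroup (Fin 2 → F)} {w₀ : Fin 2 → F} (hU : Good U w₀) :
    Rich U ainf := by
  obtain ⟨x, y, z, ⟨hx, hy, hz⟩, ⟨hxy, hyz, hxz⟩, mx, my, mz⟩ := hU.miss
  have hcone : ∀ x : Fin 2 → F, x ≠ 0 → (∀ c : F, c ≠ 0 → c • x ∉ U) → cone U (inc x) := by
    intro x hx mx
    have e : fst2 (inc x) = x := by ext i; fin_cases i <;> simp [inc, fst2]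
    right
    rw [e]
    exact ⟨by simp [inc], hx, mx⟩
  have hprop : ∀ x y : Fin 2 → F, br x y ≠ 0 → ¬ prop (inc x) (inc y) := by
    rintro x y h ⟨c, hc, e⟩
    apply h
    have e0 := congrFun e 0
    have e1 := congrFun e 1
    simp [inc] at e0 e1
    rw [br, e0, e1]
    ring
  exact ⟨inc x, inc y, inc z, ⟨hcone x hx mx, hcone y hy my, hcone z hz mz⟩,
    ⟨by simp [fn_ainf, inc], by simp [fn_ainf, inc], by simp [fn_ainf, inc]⟩,
    hprop x y hxy, hprop y z hyz, hprop x z hxz⟩

lemma ainf_ne : (ainf : Fin 3 → F) ≠ 0 := fun h => by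
  have := congrFun h 2
  simp [ainf] at this

/-- The equivalence can be modified to fix the line at infinity. -/
lemma exists_fix {U₁ U₂ : AddSubgroup (Fin 2 → F)} {w₁ w₂ : Fin 2 → F} (h₁ : Good U₁ w₁)
    (h₂ : Good U₂ w₂) (t : Tr U₁ U₂) : ∃ s : Tr U₁ U₂, ∀ x, x 2 = 0 → s.f x 2 = 0 := by
  obtain ⟨a, ha, hax⟩ := t.pull ainf ainf_ne
  have hRa : Rich U₁ a := t.rich hax (rich_inf h₂)
  by_cases ha01 : a 0 = 0 ∧ a 1 = 0
  · refine ⟨t, fun x hx => ?_⟩
    rw [← fn_ainf (t.f x), ← hax]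
    simp [fn, ha01.1, ha01.2, hx]
  have ha01' : a 0 ≠ 0 ∨ a 1 ≠ 0 := by
    by_contra hcon
    push Not at hcon
    exact ha01 hcon
  obtain ⟨ha1, u, hu, ha2⟩ := rich_class h₁ ha01' hRa
  obtain ⟨a', ha', hax'⟩ := t.symm.pull ainf ainf_ne
  have hRa' : Rich U₂ a' := t.symm.rich hax' (rich_inf h₁)
  by_cases ha01'' : a' 0 = 0 ∧ a' 1 = 0
  · have ha2' : a' 2 ≠ 0 := by
      intro h
      apply ha'
      ext i
      fin_cases i
      · exact ha01''.1
      · exact ha01''.2
      · exact h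
    refine ⟨t, fun x hx => ?_⟩
    have h1 := (hax' (t.f x)).mpr (by
      rw [fn_ainf]
      change (t.f.symm (t.f x)) 2 = 0
      rw [AddEquiv.symm_apply_apply]
      exact hx)
    simp only [fn, ha01''.1, ha01''.2, zero_mul, zero_add] at h1
    exact (mul_eq_zero.mp h1).resolve_left ha2'
  have ha01''' : a' 0 ≠ 0 ∨ a' 1 ≠ 0 := by
    by_contra hcon
    push Not at hcon
    exact ha01'' hcon
  obtain ⟨ha1', u', hu', ha2''⟩ := rich_class h₂ ha01''' hRa'
  obtain ⟨b, hb, hbr⟩ := h₂.ex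
  -- the line `κ`
  let s1 : Tr U₁ U₂ := t.trans (tau U₂ (-b) (U₂.neg_mem hb))
  obtain ⟨κ, hκ, hκx⟩ := s1.pull a' ha'
  have hRκ : Rich U₁ κ := s1.rich hκx hRa'
  have hs1 : ∀ x, s1.f x = t.f x + (t.f x) 2 • inc (-b) := fun x => rfl
  have hκ01 : κ 0 ≠ 0 ∨ κ 1 ≠ 0 := by
    by_contra hcon
    push Not at hcon
    -- then the kernel of `κ` is the plane at infinity
    have hκ2 : κ 2 ≠ 0 := by
      intro h
      apply hκ
      ext i
      fin_cases i
      · exact hcon.1
      · exact hcon.2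
      · exact h
    have h1 : (t.f.symm (aff u')) 2 = 0 := by
      have := (hax' (aff u')).mp ha2''
      rwa [fn_ainf] at this
    have h3 := (hκx (t.f.symm (aff u'))).mp (by
      simp only [fn, hcon.1, hcon.2, h1]; ring)
    rw [hs1, AddEquiv.apply_symm_apply, fn_add, ha2'', fn_smul, map_neg] at h3
    have h4 : fn a' (inc b) = 0 := by
      simp [aff] at h3
      have e : fn a' (-inc b) = -fn a' (inc b) := by simp only [fn, Pi.neg_apply]; ring
      rw [e] at h3
      exact neg_eq_zero.mp h3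
    simp [fn, inc] at h4 ha1'
    rw [br] at hbr
    have h5 : a' 0 * (w₂ 0 * b 1 - w₂ 1 * b 0) = 0 := by
      linear_combination (b 1) * ha1' - (w₂ 1) * h4
    have h6 : a' 1 * (w₂ 0 * b 1 - w₂ 1 * b 0) = 0 := by
      linear_combination (w₂ 0) * h4 - (b 0) * ha1'
    rcases ha01''' with h | h
    · exact (mul_ne_zero h hbr) h5
    · exact (mul_ne_zero h hbr) h6
  obtain ⟨hκ1, u1, hu1, hκ2⟩ := rich_class h₁ hκ01 hRκ
  -- the modified map
  refine ⟨((t.trans (tau U₂ b hb)).trans (t.symm.trans (tau U₁ (u - u1) (U₁.sub_mem hu hu1)))).trans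
    t, fun x hx => ?_⟩
  set w := t.f.symm ((tau U₂ b hb).f (t.f x)) with hw
  have hgoal : ((((t.trans (tau U₂ b hb)).trans (t.symm.trans
      (tau U₁ (u - u1) (U₁.sub_mem hu hu1)))).trans t).f x) =
      t.f (w + w 2 • inc (u - u1)) := rfl
  rw [hgoal, ← fn_ainf (t.f _), ← hax, ker_iff h₁.ne ha ha1 ha2]
  have hκw : fn κ w = 0 := by
    rw [hκx, hax', fn_ainf]
    change (t.f.symm (s1.f w)) 2 = 0
    have e : s1.f w = t.f x := by
      rw [hs1, hw, AddEquiv.apply_symm_apply, tau_apply]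
      simp [inc2]
    rw [e, AddEquiv.symm_apply_apply]
    exact hx
  rw [ker_iff h₁.ne hκ hκ1 hκ2] at hκw
  rw [← hκw]
  simp [br, fst2, inc]
  ring

lemma cone_aff {U : AddSubgroup (Fin 2 → F)} (u : Fin 2 → F) : cone U (aff u) ↔ u ∈ U := by
  have e2 : aff u 2 = 1 := rfl
  have ef : fst2 (aff u) = u := by
    ext i; fin_cases i <;> simp [aff, fst2]
  rw [cone, e2, ef, inv_one, one_smul]
  constructor
  · rintro (h | h)
    · exact h.2
    · exact absurd h.1 one_ne_zero
  · intro h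
    exact Or.inl ⟨one_ne_zero, h⟩

lemma inc_fst2 {x : Fin 3 → F} (hx : x 2 = 0) : inc (fst2 x) = x := by
  ext i
  fin_cases i
  · rfl
  · rfl
  · exact hx.symm

/-- From a map fixing the line at infinity to an equivalence of the subgroups. -/
lemma extract {U₁ U₂ : AddSubgroup (Fin 2 → F)} (s : Tr U₁ U₂)
    (hs : ∀ x, x 2 = 0 → s.f x 2 = 0) : GammaLEquiv U₁ U₂ := by
  set p := s.f ![0, 0, 1] with hp
  have hinc : ∀ w, inc (fst2 (s.f (inc w))) = s.f (inc w) := fun w => inc_fst2 (hs _ (inc2 w))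
  have hdec : ∀ x : Fin 3 → F, x = inc (fst2 x) + x 2 • (![0, 0, 1] : Fin 3 → F) := by
    intro x
    ext i
    fin_cases i <;> simp [inc, fst2]
  have hf : ∀ x, s.f x = s.f (inc (fst2 x)) + s.σ (x 2) • p := by
    intro x
    conv_lhs => rw [hdec x, map_add, s.smul]
  have hf2 : ∀ x, s.f x 2 = s.σ (x 2) * p 2 := by
    intro x
    rw [hf, Pi.add_apply, hs _ (inc2 _), zero_add]
    rfl
  have hc : p 2 ≠ 0 := by
    intro h
    have h1 := hf2 (s.f.symm ![0, 0, 1])
    rw [AddEquiv.apply_symm_apply, h, mul_zero] at h1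
    simp at h1
  have hx2 : ∀ x, s.f x 2 = 0 → x 2 = 0 := by
    intro x hx
    rw [hf2] at hx
    exact (map_eq_zero_iff s.σ s.σ.injective).mp ((mul_eq_zero.mp hx).resolve_right hc)
  let g : (Fin 2 → F) →ₛₗ[(s.σ : F →+* F)] (Fin 2 → F) :=
    { toFun := fun w => (p 2)⁻¹ • fst2 (s.f (inc w))
      map_add' := by
        intro v w
        rw [map_add, map_add, ← smul_add]
        congr 1
        ext i
        fin_cases i <;> simp [fst2]
      map_smul' := by
        intro a w
        rw [map_smul, s.smul]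
        ext i
        fin_cases i
        · simp [fst2]; ring
        · simp [fst2]; ring }
  have hg : ∀ w, p 2 • g w = fst2 (s.f (inc w)) := by
    intro w
    change p 2 • ((p 2)⁻¹ • fst2 (s.f (inc w))) = fst2 (s.f (inc w))
    rw [smul_smul, mul_inv_cancel₀ hc, one_smul]
  have hmem : ∀ u, u ∈ U₁ ↔ g u + (p 2)⁻¹ • fst2 p ∈ U₂ := by
    intro u
    rw [← cone_aff, s.cone_iff]
    have e2 : s.f (aff u) 2 = p 2 := by
      rw [hf2]
      change s.σ 1 * p 2 = p 2
      rw [map_one, one_mul]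
    have ef : fst2 (s.f (aff u)) = fst2 (s.f (inc u)) + fst2 p := by
      have e1 : aff u = inc u + ![0, 0, 1] := by
        ext i; fin_cases i <;> simp [aff, inc]
      rw [e1, map_add]
      ext i
      fin_cases i <;> simp [fst2, hp]
    rw [cone, e2, ef, smul_add]
    constructor
    · rintro (h | h)
      · exact h.2
      · exact absurd h.1 hc
    · intro h
      exact Or.inl ⟨hc, h⟩
  have h0 : (p 2)⁻¹ • fst2 p ∈ U₂ := by
    have := (hmem 0).mp U₁.zero_mem
    rwa [map_zero, zero_add] at this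
  have hmem' : ∀ u, u ∈ U₁ ↔ g u ∈ U₂ := by
    intro u
    rw [hmem]
    constructor
    · intro h
      have := U₂.sub_mem h h0
      simpa using this
    · intro h
      exact U₂.add_mem h h0
  have hginj : Function.Injective g := by
    rw [injective_iff_map_eq_zero]
    intro w hw
    have h1 := hg w
    rw [hw, smul_zero] at h1
    have h2 := hinc w
    rw [← h1, map_zero] at h2
    have h3 : inc w = 0 := by
      apply s.f.injective
      rw [← h2, map_zero]
    ext i
    fin_cases i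
    · exact congrFun h3 0
    · exact congrFun h3 1
  have hgsurj : Function.Surjective g := by
    intro y
    set x := s.f.symm (inc (p 2 • y)) with hx
    have h1 : x 2 = 0 := by
      apply hx2
      rw [hx, AddEquiv.apply_symm_apply]
      exact inc2 _
    refine ⟨fst2 x, ?_⟩
    have h2 := hg (fst2 x)
    rw [inc_fst2 h1, hx, AddEquiv.apply_symm_apply] at h2
    have h3 : fst2 (inc (p 2 • y)) = p 2 • y := by
      ext i; fin_cases i <;> rfl
    rw [h3] at h2
    exact smul_right_injective _ hc h2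
  refine ⟨s.σ, g, ⟨hginj, hgsurj⟩, ?_⟩
  ext y
  constructor
  · rintro ⟨u, hu, rfl⟩
    exact (hmem' u).mp hu
  · intro hy
    obtain ⟨u, rfl⟩ := hgsurj y
    exact ⟨u, (hmem' u).mpr hy, rfl⟩

lemma exists_br {w : Fin 2 → F} (hw : w ≠ 0) : ∃ z, br w z ≠ 0 := by
  by_cases h : w 0 = 0
  · have h1 : w 1 ≠ 0 := by
      intro h1
      apply hw
      ext i
      fin_cases i
      · exact h
      · exact h1
    exact ⟨![1, 0], by simpa [br] using h1⟩
  · exact ⟨![0, 1], by simpa [br] using h⟩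

/-- Clubs with `2 ≤ i < n` are good. -/
lemma good_of_club [Finite F] {n i : ℕ} (hF : Nat.card F = 2 ^ n) {U : AddSubgroup (Fin 2 → F)}
    (hU : IsClub n i U) (hi : 2 ≤ i) (hin : i < n) : ∃ w₀, Good U w₀ := by
  obtain ⟨w₀, hw₀, hwt, hother⟩ := hU.club
  obtain ⟨w₁, hw₁⟩ := exists_br hw₀
  have hUfin : (U : Set (Fin 2 → F)).Finite := Set.toFinite _
  have hUcard : (U : Set (Fin 2 → F)).ncard = 2 ^ n := by
    rw [← hU.card_eq]; rfl
  have hex : ∃ b ∈ U, br w₀ b ≠ 0 := by
    by_contra hcon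
    push Not at hcon
    have : (U : Set (Fin 2 → F)) ⊆ {u | u ∈ U ∧ u ∈ Submodule.span F {w₀}} := by
      intro u hu
      exact ⟨hu, (mem_span_iff_br hw₀).mpr (hcon u hu)⟩
    have h1 := Set.ncard_le_ncard this (Set.toFinite _)
    rw [hUcard] at h1
    rw [HasWeight] at hwt
    rw [hwt] at h1
    exact absurd h1 (not_le.mpr (Nat.pow_lt_pow_right (by norm_num) hin))
  have hex2 : ∃ u ∈ U, ∃ b ∈ U, br u b ≠ 0 := by
    obtain ⟨b, hb, hbr⟩ := hex
    have h1 : 1 < {u | u ∈ U ∧ u ∈ Submodule.span F {w₀}}.ncard := by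
      rw [HasWeight] at hwt
      rw [hwt]
      exact Nat.one_lt_two_pow (by omega)
    obtain ⟨x, hx, y, hy, hxy⟩ := (Set.one_lt_ncard (Set.toFinite _)).mp h1
    have h2 : ∀ x : Fin 2 → F, x ∈ Submodule.span F {w₀} → x ≠ 0 → br x b ≠ 0 := by
      intro x hx hx0 h
      obtain ⟨c, rfl⟩ := Submodule.mem_span_singleton.mp hx
      have e : br (c • w₀) b = c * br w₀ b := by
        simp only [br, Pi.smul_apply, smul_eq_mul]; ring
      rw [e] at h
      have hc : c ≠ 0 := fun h => hx0 (by rw [h, zero_smul])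
      exact (mul_ne_zero hc hbr) h
    by_cases hx0 : x = 0
    · exact ⟨y, hy.1, b, hb, h2 y hy.2 (fun h => hxy (hx0.trans h.symm))⟩
    · exact ⟨x, hx.1, b, hb, h2 x hx.2 hx0⟩
  refine ⟨w₀, hw₀, hex, hex2, ?_, ?_⟩
  · intro w hw hbr u hu u' hu' hu0 hu0' hbu hbu'
    have h1 := (hother w hw (fun h => hbr ((mem_span_iff_br hw₀).mp h))
      ⟨u, hu, hu0, (mem_span_iff_br hw).mpr hbu⟩).1
    rw [HasWeight, pow_one] at h1
    by_contra hne
    have h2 : ({0, u, u'} : Set (Fin 2 → F)) ⊆ {x | x ∈ U ∧ x ∈ Submodule.span F {w}} := by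
      intro x hx
      rcases hx with hx | hx | hx
      · rw [hx]; exact ⟨U.zero_mem, Submodule.zero_mem _⟩
      · rw [hx]; exact ⟨hu, (mem_span_iff_br hw).mpr hbu⟩
      · rw [Set.mem_singleton_iff.mp hx]; exact ⟨hu', (mem_span_iff_br hw).mpr hbu'⟩
    have h3 := Set.ncard_le_ncard h2 (Set.toFinite _)
    rw [h1] at h3
    have h4 : ({0, u, u'} : Set (Fin 2 → F)).ncard = 3 := by
      rw [Set.ncard_eq_three]
      exact ⟨0, u, u', hu0.symm, hu0'.symm, hne, rfl⟩
    omega
  · -- counting the missed directions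
    have hx_br : ∀ m : F, br w₀ (w₁ + m • w₀) = br w₀ w₁ := by
      intro m
      simp only [br, Pi.add_apply, Pi.smul_apply, smul_eq_mul]; ring
    set M : Set F := {m | ∀ c : F, c ≠ 0 → c • (w₁ + m • w₀) ∉ U} with hM
    set S : Set (Fin 2 → F) := {u | u ∈ U ∧ u ∉ Submodule.span F {w₀}} with hS
    have hScard : S.ncard + 2 ^ i = 2 ^ n := by
      rw [HasWeight] at hwt
      rw [← hwt, ← hUcard, ← Set.ncard_union_eq]
      · congr 1
        ext u
        simp only [hS, Set.mem_union, Set.mem_ofPred_eq, SetLike.mem_coe]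
        tauto
      · rw [Set.disjoint_left]
        intro u hu hu'
        exact hu.2 hu'.2
    have hMc : (Mᶜ : Set F).ncard ≤ S.ncard := by
      have hch : ∀ m : F, m ∈ Mᶜ → ∃ c : F, c ≠ 0 ∧ c • (w₁ + m • w₀) ∈ U := by
        intro m hm
        simp only [hM, Set.mem_compl_iff, Set.mem_ofPred_eq, not_forall, not_not] at hm
        obtain ⟨c, hc, hc'⟩ := hm
        exact ⟨c, hc, hc'⟩
      choose! c hc0 hcU using hch
      apply Set.ncard_le_ncard_of_injOn (fun m => c m • (w₁ + m • w₀)) _ _ (Set.toFinite _)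
      · intro m hm
        refine ⟨hcU m hm, fun h => ?_⟩
        have := (mem_span_iff_br hw₀).mp h
        rw [br_smul, hx_br] at this
        exact (mul_ne_zero (hc0 m hm) hw₁) this
      · intro m hm m' hm' h
        simp only at h
        have h1 : c m = c m' := by
          have := congrArg (br w₀) h
          rw [br_smul, br_smul, hx_br, hx_br] at this
          exact mul_right_cancel₀ hw₁ this
        rw [← h1] at h
        have h2 := smul_right_injective _ (hc0 m hm) h
        have h3 : m • w₀ = m' • w₀ := add_left_cancel h2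
        exact smul_left_injective _ hw₀ h3
    have hMcard : 2 < M.ncard := by
      have h1 := Set.ncard_add_ncard_compl M
      rw [hF] at h1
      have h2 : 2 ^ 2 ≤ 2 ^ i := Nat.pow_le_pow_right (by norm_num) hi
      omega
    obtain ⟨m1, hm1, m2, hm2, m3, hm3, h12, h13, h23⟩ := (Set.two_lt_ncard (Set.toFinite _)).mp hMcard
    have hne : ∀ m : F, w₁ + m • w₀ ≠ 0 := by
      intro m h
      have := hx_br m
      rw [h] at this
      apply hw₁
      rw [← this]
      simp [br]
    have hbr : ∀ m m' : F, m ≠ m' → br (w₁ + m • w₀) (w₁ + m' • w₀) ≠ 0 := by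
      intro m m' hmm
      have e : br (w₁ + m • w₀) (w₁ + m' • w₀) = (m - m') * br w₀ w₁ := by
        simp only [br, Pi.add_apply, Pi.smul_apply, smul_eq_mul]; ring
      rw [e]
      exact mul_ne_zero (sub_ne_zero.mpr hmm) hw₁
    exact ⟨_, _, _, ⟨hne m1, hne m2, hne m3⟩, ⟨hbr _ _ h12, hbr _ _ h23, hbr _ _ h13⟩,
      hm1, hm2, hm3⟩

lemma decomp {w z : Fin 2 → F} (h : br w z ≠ 0) (x : Fin 2 → F) :
    x = (br x z / br w z) • w + (br w x / br w z) • z := by
  have key : br w z • x = br x z • w + br w x • z := by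
    ext i
    fin_cases i
    · simp [br]; ring
    · simp [br]; ring
  rw [div_eq_inv_mul, div_eq_inv_mul, mul_smul, mul_smul, ← smul_add, ← key, smul_smul,
    inv_mul_cancel₀ h, one_smul]

/-- If `U₁` and `U₂` are one-dimensional `F`-subspaces they are equivalent. -/
lemma equiv_of_span {U₁ U₂ : AddSubgroup (Fin 2 → F)} {w₁ w₂ : Fin 2 → F} (hw₁ : w₁ ≠ 0)
    (hw₂ : w₂ ≠ 0) (h₁ : ∀ u, u ∈ U₁ ↔ u ∈ Submodule.span F {w₁})
    (h₂ : ∀ u, u ∈ U₂ ↔ u ∈ Submodule.span F {w₂}) : GammaLEquiv U₁ U₂ := by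
  obtain ⟨z₁, hz₁⟩ := exists_br hw₁
  obtain ⟨z₂, hz₂⟩ := exists_br hw₂
  have hdec := decomp hz₁
  let f : (Fin 2 → F) →ₛₗ[((RingEquiv.refl F : F ≃+* F) : F →+* F)] (Fin 2 → F) :=
    { toFun := fun x => (br x z₁ / br w₁ z₁) • w₂ + (br w₁ x / br w₁ z₁) • z₂
      map_add' := by
        intro x y
        have e : br (x + y) z₁ = br x z₁ + br y z₁ := by
          simp only [br, Pi.add_apply]; ring
        rw [e, br_add, add_div, add_div, add_smul, add_smul]
        abel
      map_smul' := by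
        intro c x
        have e : br (c • x) z₁ = c * br x z₁ := by
          simp only [br, Pi.smul_apply, smul_eq_mul]; ring
        rw [e, br_smul, mul_div_assoc, mul_div_assoc, mul_smul, mul_smul, ← smul_add]
        rfl }
  have hf : ∀ x, f x = (br x z₁ / br w₁ z₁) • w₂ + (br w₁ x / br w₁ z₁) • z₂ := fun _ => rfl
  have hww : ∀ w : Fin 2 → F, br w w = 0 := fun w => by simp only [br]; ring
  have hbr2 : ∀ x, br w₂ (f x) = (br w₁ x / br w₁ z₁) * br w₂ z₂ := by
    intro x
    rw [hf, br_add, br_smul, br_smul, hww, mul_zero, zero_add]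
  have hinj : Function.Injective f := by
    rw [injective_iff_map_eq_zero]
    intro x hx
    have h1 := hbr2 x
    rw [hx] at h1
    have h2 : br w₂ 0 = 0 := by simp [br]
    rw [h2] at h1
    have h3 : br w₁ x / br w₁ z₁ = 0 := (mul_eq_zero.mp h1.symm).resolve_right hz₂
    rw [hf, h3, zero_smul, add_zero] at hx
    have h4 : br x z₁ / br w₁ z₁ = 0 := (smul_eq_zero.mp hx).resolve_right hw₂
    rw [hdec x, h3, h4, zero_smul, zero_smul, add_zero]
  have hdec2 := decomp hz₂
  have hfw : f w₁ = w₂ := by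
    rw [hf, hww, zero_div, zero_smul, add_zero, div_self hz₁, one_smul]
  have hfz : f z₁ = z₂ := by
    rw [hf, hww, zero_div, zero_smul, zero_add, div_self hz₁, one_smul]
  have hsurj : Function.Surjective f := by
    intro y
    refine ⟨(br y z₂ / br w₂ z₂) • w₁ + (br w₂ y / br w₂ z₂) • z₁, ?_⟩
    rw [map_add, map_smulₛₗ, map_smulₛₗ, hfw, hfz]
    exact (hdec2 y).symm
  refine ⟨RingEquiv.refl F, f, ⟨hinj, hsurj⟩, ?_⟩
  ext y
  constructor
  · rintro ⟨u, hu, rfl⟩
    rw [SetLike.mem_coe, h₁] at hu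
    rw [SetLike.mem_coe, h₂]
    obtain ⟨c, rfl⟩ := Submodule.mem_span_singleton.mp hu
    rw [map_smulₛₗ, hfw]
    exact Submodule.smul_mem _ _ (Submodule.mem_span_singleton_self _)
  · intro hy
    rw [SetLike.mem_coe, h₂] at hy
    obtain ⟨c, rfl⟩ := Submodule.mem_span_singleton.mp hy
    refine ⟨c • w₁, ?_, ?_⟩
    · rw [SetLike.mem_coe, h₁]
      exact Submodule.smul_mem _ _ (Submodule.mem_span_singleton_self _)
    · rw [map_smulₛₗ, hfw]
      rfl

/-- The case `i = n`. -/
lemma span_of_club [Finite F] {n : ℕ} (hF : Nat.card F = 2 ^ n) {U : AddSubgroup (Fin 2 → F)}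
    (hU : IsClub n n U) : ∃ w₀ : Fin 2 → F, w₀ ≠ 0 ∧ ∀ u, u ∈ U ↔ u ∈ Submodule.span F {w₀} := by
  obtain ⟨w₀, hw₀, hwt, -⟩ := hU.club
  have hUcard : (U : Set (Fin 2 → F)).ncard = 2 ^ n := by
    rw [← hU.card_eq]; rfl
  rw [HasWeight] at hwt
  have h1 : {u | u ∈ U ∧ u ∈ Submodule.span F {w₀}} = (U : Set (Fin 2 → F)) := by
    apply Set.eq_of_subset_of_ncard_le (fun u hu => hu.1) _ (Set.toFinite _)
    rw [hwt, hUcard]
  have hspan : (Submodule.span F {w₀} : Set (Fin 2 → F)).ncard = 2 ^ n := by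
    have e : (Submodule.span F {w₀} : Set (Fin 2 → F)) = Set.range (fun c : F => c • w₀) := by
      ext x
      simp only [SetLike.mem_coe, Submodule.mem_span_singleton, Set.mem_range]
    rw [e, ← hF, ← Set.ncard_univ, ← Set.image_univ]
    exact Set.ncard_image_of_injective _ (smul_left_injective _ hw₀)
  have h2 : {u | u ∈ U ∧ u ∈ Submodule.span F {w₀}} =
      (Submodule.span F {w₀} : Set (Fin 2 → F)) := by
    apply Set.eq_of_subset_of_ncard_le (fun u hu => hu.2) _ (Set.toFinite _)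
    rw [hwt, hspan]
  refine ⟨w₀, hw₀, fun u => ?_⟩
  have h3 := h1.symm.trans h2
  exact (Set.ext_iff.mp h3 u)

/-- Clubs have `i = n` or `2 ≤ i < n`. -/
lemma club_cases [Finite F] {n i : ℕ} {U : AddSubgroup (Fin 2 → F)} (hU : IsClub n i U) :
    i = n ∨ (2 ≤ i ∧ i < n) := by
  obtain ⟨w₀, hw₀, hwt, hother⟩ := hU.club
  have hUcard : (U : Set (Fin 2 → F)).ncard = 2 ^ n := by
    rw [← hU.card_eq]; rfl
  rw [HasWeight] at hwt
  have hle : i ≤ n := by
    have h1 := Set.ncard_le_ncard (show {u | u ∈ U ∧ u ∈ Submodule.span F {w₀}} ⊆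
      (U : Set (Fin 2 → F)) from fun u hu => hu.1) (Set.toFinite _)
    rw [hwt, hUcard] at h1
    exact (Nat.pow_le_pow_iff_right (by norm_num)).mp h1
  rcases Nat.lt_or_ge i n with hlt | hge
  · right
    refine ⟨?_, hlt⟩
    by_contra hcon
    have hi1 : i = 1 := by have := hU.one_le; omega
    subst hi1
    have hex : ∃ b ∈ U, b ∉ Submodule.span F {w₀} := by
      by_contra hcon
      push Not at hcon
      have : (U : Set (Fin 2 → F)) ⊆ {u | u ∈ U ∧ u ∈ Submodule.span F {w₀}} := by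
        intro u hu
        exact ⟨hu, hcon u hu⟩
      have h1 := Set.ncard_le_ncard this (Set.toFinite _)
      rw [hUcard, hwt] at h1
      exact absurd h1 (not_le.mpr (Nat.pow_lt_pow_right (by norm_num) hlt))
    obtain ⟨b, hb, hb'⟩ := hex
    have hb0 : b ≠ 0 := by
      rintro rfl
      exact hb' (Submodule.zero_mem _)
    have h1 := hother b hb0 hb' ⟨b, hb, hb0, Submodule.mem_span_singleton_self _⟩
    exact h1.2 h1.1
  · exact Or.inl (le_antisymm hle hge)

/-- The linear map taking `(u, 0) + v` to `(u, 1)`. -/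
noncomputable def norm (v : Fin 3 → F) (hv : v 2 ≠ 0) : (Fin 3 → F) ≃+ (Fin 3 → F) where
  toFun := fun x => ![x 0 - x 2 / v 2 * v 0, x 1 - x 2 / v 2 * v 1, x 2 / v 2]
  invFun := fun y => ![y 0 + y 2 * v 0, y 1 + y 2 * v 1, y 2 * v 2]
  left_inv := by
    intro x
    ext i
    fin_cases i <;> simp [hv]
  right_inv := by
    intro y
    ext i
    fin_cases i <;> simp [hv]
  map_add' := by
    intro x y
    ext i
    fin_cases i <;> simp <;> ring

lemma norm_smul (v : Fin 3 → F) (hv : v 2 ≠ 0) (a : F) (x : Fin 3 → F) :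
    norm v hv (a • x) = a • norm v hv x := by
  ext i
  fin_cases i
  · simp [norm]; ring
  · simp [norm]; ring
  · simp [norm]; ring

/-- Membership in the arc. -/
lemma mem_arc [CharP F 2] (U : AddSubgroup (Fin 2 → F)) (v : Fin 3 → F) (hv : v 2 ≠ 0)
    (x : Fin 3 → F) (hx : x ≠ 0) :
    Projectivization.mk F x hx ∈ arc U v ↔ cone U (norm v hv x) := by
  have hell : Projectivization.mk F x hx ∈ (ell : Set (PG F)) ↔ x 2 = 0 := by
    constructor
    · rintro ⟨y, hy, hy2, h⟩
      rw [Projectivization.mk_eq_mk_iff'] at h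
      obtain ⟨c, rfl⟩ := h
      simp [hy2]
    · intro h
      exact ⟨x, hx, h, rfl⟩
  have hlin : ∀ W : AddSubgroup (Fin 3 → F), Projectivization.mk F x hx ∈ linSet W ↔
      ∃ c : F, c ≠ 0 ∧ c • x ∈ W := by
    intro W
    constructor
    · rintro ⟨y, hy, hyW, h⟩
      rw [Projectivization.mk_eq_mk_iff'] at h
      obtain ⟨c, rfl⟩ := h
      have hc : c ≠ 0 := by
        rintro rfl
        exact hx (zero_smul _ _)
      refine ⟨c⁻¹, inv_ne_zero hc, ?_⟩
      rw [smul_smul, inv_mul_cancel₀ hc, one_smul]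
      exact hyW
    · rintro ⟨c, hc, hcW⟩
      refine ⟨c • x, smul_ne_zero hc hx, hcW, ?_⟩
      rw [Projectivization.mk_eq_mk_iff']
      exact ⟨c⁻¹, by rw [smul_smul, inv_mul_cancel₀ hc, one_smul]⟩
  have hmap : ∀ y : Fin 3 → F, y ∈ U.map (inc (F := F)).toAddMonoidHom ↔ y 2 = 0 ∧ fst2 y ∈ U := by
    intro y
    rw [AddSubgroup.mem_map]
    constructor
    · rintro ⟨u, hu, rfl⟩
      refine ⟨rfl, ?_⟩
      have : fst2 (inc u) = u := by ext i; fin_cases i <;> rfl
      change fst2 (inc u) ∈ U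
      rw [this]
      exact hu
    · rintro ⟨h1, h2⟩
      exact ⟨fst2 y, h2, inc_fst2 h1⟩
  have hfs : ∀ (c : F) (y : Fin 3 → F), fst2 (c • y) = c • fst2 y := by
    intro c y; ext i; fin_cases i <;> simp [fst2]
  rw [arc, Set.mem_union, Set.mem_sdiff, Set.mem_sdiff, hell, hlin, hlin]
  by_cases hx2 : x 2 = 0
  · have hn : norm v hv x = x := by
      ext i
      fin_cases i <;> simp [norm, hx2]
    rw [hn, cone]
    have hf0 : fst2 x ≠ 0 := by
      intro h
      apply hx
      rw [← inc_fst2 hx2, h, map_zero]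
    constructor
    · rintro (h | h)
      · exact absurd hx2 h.2
      · right
        refine ⟨hx2, hf0, fun c hc hcU => h.2 ⟨c, hc, ?_⟩⟩
        rw [hmap, hfs]
        exact ⟨by simp [hx2], hcU⟩
    · rintro (h | h)
      · exact absurd hx2 h.1
      · right
        refine ⟨hx2, ?_⟩
        rintro ⟨c, hc, hcW⟩
        rw [hmap, hfs] at hcW
        exact h.2.2 c hc hcW.2
  · have hn2 : norm v hv x 2 = x 2 / v 2 := by simp [norm]
    have hn2' : norm v hv x 2 ≠ 0 := by rw [hn2]; exact div_ne_zero hx2 hv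
    have hsup : ∀ y : Fin 3 → F, y 2 ≠ 0 →
        (y ∈ U.map (inc (F := F)).toAddMonoidHom ⊔ AddSubgroup.zmultiples v ↔
          y - v ∈ U.map (inc (F := F)).toAddMonoidHom) := by
      intro y hy
      rw [AddSubgroup.mem_sup]
      constructor
      · rintro ⟨z, hz, t, ht, rfl⟩
        obtain ⟨k, rfl⟩ := AddSubgroup.mem_zmultiples_iff.mp ht
        have hkv : k • v = 0 ∨ k • v = v := by
          have h2 : (2 : ℤ) • v = 0 := by
            rw [two_smul]
            ext i
            exact CharTwo.add_self_eq_zero _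
          rcases Int.even_or_odd' k with ⟨m, hm | hm⟩
          · left
            rw [hm, mul_comm, mul_smul, h2, smul_zero]
          · right
            rw [hm, add_smul, mul_comm, mul_smul, h2, smul_zero, zero_add, one_smul]
        rcases hkv with h | h
        · exfalso
          apply hy
          rw [h, add_zero]
          exact ((hmap z).mp hz).1
        · rw [h, add_sub_cancel_right]
          exact hz
      · intro h
        exact ⟨y - v, h, v, AddSubgroup.mem_zmultiples v, sub_add_cancel _ _⟩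
    have hfn : ((norm v hv x) 2)⁻¹ • fst2 (norm v hv x) = fst2 ((v 2 / x 2) • x - v) := by
      rw [hn2]
      ext i
      fin_cases i
      · simp [norm, fst2]
        field_simp
      · simp [norm, fst2]
        field_simp
    rw [cone, hfn]
    constructor
    · rintro (h | h)
      · left
        refine ⟨hn2', ?_⟩
        obtain ⟨c, hc, hcW⟩ := h.1
        rw [hsup _ (by simpa using ⟨hc, hx2⟩), hmap] at hcW
        have hc' : c = v 2 / x 2 := by
          have := hcW.1
          simp at this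
          rw [eq_div_iff hx2]
          linear_combination this
        rw [← hc']
        exact hcW.2
      · exact absurd h.1 hx2
    · rintro (h | h)
      · left
        refine ⟨⟨v 2 / x 2, div_ne_zero hv hx2, ?_⟩, hx2⟩
        rw [hsup _ (by simp [hv, hx2]), hmap]
        refine ⟨?_, h.2⟩
        simp [hx2]
      · exact absurd h.1 hn2'

end plane

/-- **Inequivalent clubs give inequivalent translation KM-arcs.** If `𝒜(U₁, v₁)` and
`𝒜(U₂, v₂)` are equivalent under a collineation, then `U₁` and `U₂` are `ΓL(2, 2 ^ n)`-equivalent.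
-/
theorem result (n i : ℕ) (F : Type) [Field F] (hF : Nat.card F = 2 ^ n)
    (U₁ U₂ : AddSubgroup (Fin 2 → F)) (hU₁ : IsClub n i U₁) (hU₂ : IsClub n i U₂)
    (v₁ v₂ : Fin 3 → F) (hv₁ : v₁ ∉ Submodule.span F (inc '' (U₁ : Set (Fin 2 → F))))
    (hv₂ : v₂ ∉ Submodule.span F (inc '' (U₂ : Set (Fin 2 → F)))) (g : PG F → PG F)
    (hg : IsCollineation g) (hgA : g '' arc U₁ v₁ = arc U₂ v₂) : GammaLEquiv U₁ U₂ := by
  have hfin : Finite F := Nat.finite_of_card_ne_zero (by rw [hF]; positivity)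
  have := Fintype.ofFinite F
  have hchar : CharP F 2 := by
    have : Fact (Nat.Prime 2) := ⟨Nat.prime_two⟩
    rw [Nat.card_eq_fintype_card] at hF
    exact charP_of_card_eq_prime_pow hF
  rcases club_cases hU₁ with hin | ⟨hi, hin⟩
  · subst hin
    obtain ⟨w₁, hw₁, h₁⟩ := span_of_club hF hU₁
    obtain ⟨w₂, hw₂, h₂⟩ := span_of_club hF hU₂
    exact equiv_of_span hw₁ hw₂ h₁ h₂
  obtain ⟨w₁, hG₁⟩ := good_of_club hF hU₁ hi hin
  obtain ⟨w₂, hG₂⟩ := good_of_club hF hU₂ hi hin
  -- the third coordinates do not vanish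
  have hthird : ∀ (U : AddSubgroup (Fin 2 → F)) (w : Fin 2 → F), Good U w →
      ∀ v : Fin 3 → F, v ∉ Submodule.span F (inc '' (U : Set (Fin 2 → F))) → v 2 ≠ 0 := by
    intro U w hG v hv h0
    apply hv
    obtain ⟨u, hu, b, hb, hub⟩ := hG.ex2
    rw [← inc_fst2 h0, decomp hub (fst2 v), map_add, map_smul, map_smul]
    exact Submodule.add_mem _ (Submodule.smul_mem _ _ (Submodule.subset_span ⟨u, hu, rfl⟩))
      (Submodule.smul_mem _ _ (Submodule.subset_span ⟨b, hb, rfl⟩))
  have hv₁' := hthird U₁ w₁ hG₁ v₁ hv₁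
  have hv₂' := hthird U₂ w₂ hG₂ v₂ hv₂
  obtain ⟨σ, f, hf, rfl⟩ := hg
  haveI := RingHomInvPair.of_ringEquiv σ
  have hginj := Projectivization.map_injective (τ := (σ.symm : F →+* F)) f hf.injective
  let fe : (Fin 3 → F) ≃+ (Fin 3 → F) := AddEquiv.ofBijective f.toAddMonoidHom hf
  have hfe : ∀ x, fe x = f x := fun _ => rfl
  let t : Tr U₁ U₂ :=
    { σ := σ
      f := ((norm v₁ hv₁').symm.trans fe).trans (norm v₂ hv₂')
      smul := by
        intro a x
        have e1 : (norm v₁ hv₁').symm (a • x) = a • (norm v₁ hv₁').symm x := by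
          apply (norm v₁ hv₁').injective
          rw [norm_smul, AddEquiv.apply_symm_apply, AddEquiv.apply_symm_apply]
        rw [AddEquiv.trans_apply, AddEquiv.trans_apply, AddEquiv.trans_apply,
          AddEquiv.trans_apply, e1, hfe, hfe, map_smulₛₗ, norm_smul]
        rfl
      cone_iff := by
        intro x
        rw [AddEquiv.trans_apply, AddEquiv.trans_apply, hfe]
        by_cases hx : x = 0
        · subst hx
          rw [map_zero, map_zero, map_zero]
          constructor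
          · intro h; exact absurd rfl (cone_ne h)
          · intro h; exact absurd rfl (cone_ne h)
        · obtain ⟨y, rfl⟩ := (norm v₁ hv₁').surjective x
          rw [AddEquiv.symm_apply_apply]
          have hy : y ≠ 0 := by
            rintro rfl
            exact hx (map_zero _)
          have hfy : f y ≠ 0 := by
            intro h
            exact hy (hf.injective (h.trans (map_zero f).symm))
          rw [← mem_arc U₁ v₁ hv₁' y hy, ← mem_arc U₂ v₂ hv₂' (f y) hfy, ← hgA]
          constructor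
          · intro h
            exact ⟨_, h, rfl⟩
          · rintro ⟨P, hP, hPe⟩
            have : P = Projectivization.mk F y hy := hginj hPe
            rwa [this] at hP }
  obtain ⟨s, hs⟩ := exists_fix hG₁ hG₂ t
  exact extract s hs

end Pool.Agent.Results.MP_5fce70_co.ClubArcs
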